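import Pool.Agent.H66.BP.Targets

/-! # Common factors of analytic families of monic polynomials (module ALG) -/

set_option autoImplicit false

open Filter Topology Polynomial
open Pool.Agent.H66.BP

namespace Pool.Agent.H59.BP.ALG

/-- germs of analytic functions at `0` -/
def AG : Subring (Germ (𝓝 (0 : ℂ)) ℂ) where
  carrier := {g | ∃ f : ℂ → ℂ, AnalyticAt ℂ f 0 ∧ (f : Germ (𝓝 (0 : ℂ)) ℂ) = g}
  mul_mem' := by
    rintro _ _ ⟨f, hf, rfl⟩ ⟨g, hg, rfl⟩
    exact ⟨f * g, hf.mul hg, rfl⟩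
  one_mem' := ⟨1, analyticAt_const, rfl⟩
  add_mem' := by
    rintro _ _ ⟨f, hf, rfl⟩ ⟨g, hg, rfl⟩
    exact ⟨f + g, hf.add hg, rfl⟩
  zero_mem' := ⟨0, analyticAt_const, rfl⟩
  neg_mem' := by
    rintro _ ⟨f, hf, rfl⟩
    exact ⟨-f, hf.neg, rfl⟩

/-- the germ of an analytic function -/
noncomputable def gm (f : ℂ → ℂ) (hf : AnalyticAt ℂ f 0) : AG := ⟨(f : Germ (𝓝 (0 : ℂ)) ℂ), f, hf, rfl⟩

theorem exists_rep (g : AG) : ∃ f, ∃ hf : AnalyticAt ℂ f 0, gm f hf = g := by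
  obtain ⟨g, f, hf, h⟩ := g
  exact ⟨f, hf, Subtype.ext h⟩

theorem gm_eq {f g : ℂ → ℂ} (hf : AnalyticAt ℂ f 0) (hg : AnalyticAt ℂ g 0) :
    gm f hf = gm g hg ↔ ∀ᶠ s in 𝓝 (0 : ℂ), f s = g s :=
  Subtype.ext_iff.trans Germ.coe_eq

theorem gm_eq_zero {f : ℂ → ℂ} (hf : AnalyticAt ℂ f 0) :
    gm f hf = 0 ↔ ∀ᶠ s in 𝓝 (0 : ℂ), f s = 0 := gm_eq hf analyticAt_const

theorem gm_eq_one {f : ℂ → ℂ} (hf : AnalyticAt ℂ f 0) :
    gm f hf = 1 ↔ ∀ᶠ s in 𝓝 (0 : ℂ), f s = 1 := gm_eq hf analyticAt_const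

theorem gm_mul {f g : ℂ → ℂ} (hf : AnalyticAt ℂ f 0) (hg : AnalyticAt ℂ g 0) :
    gm f hf * gm g hg = gm (f * g) (hf.mul hg) := rfl

theorem isUnit_gm {f : ℂ → ℂ} (hf : AnalyticAt ℂ f 0) (h : f 0 ≠ 0) : IsUnit (gm f hf) := by
  refine IsUnit.of_mul_eq_one (gm (fun s => (f s)⁻¹) (hf.inv h)) ?_
  rw [gm_mul, gm_eq_one]
  have := hf.continuousAt.eventually_ne h
  filter_upwards [this] with s hs
  simp [hs]

instance : IsDomain AG := by
  have h1 : NoZeroDivisors AG := by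
    constructor
    intro a b hab
    obtain ⟨f, hf, rfl⟩ := exists_rep a
    obtain ⟨g, hg, rfl⟩ := exists_rep b
    rw [gm_mul, gm_eq_zero] at hab
    rw [gm_eq_zero, gm_eq_zero]
    rcases hf.eventually_eq_zero_or_eventually_ne_zero with h | h
    · exact Or.inl h
    · rcases hg.eventually_eq_zero_or_eventually_ne_zero with h' | h'
      · exact Or.inr h'
      · exfalso
        have h3 : ∀ᶠ s in 𝓝[≠] (0 : ℂ), f s * g s = 0 := hab.filter_mono nhdsWithin_le_nhds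
        obtain ⟨s, hs1, hs2, hs3⟩ := (h.and (h'.and h3)).exists
        exact mul_ne_zero hs1 hs2 hs3
  have h2 : Nontrivial AG := inferInstance
  exact NoZeroDivisors.to_isDomain AG

theorem irr : Irreducible (gm (fun s => s) analyticAt_id) := by
  constructor
  · intro h
    obtain ⟨g, hg⟩ := h.exists_right_inv
    obtain ⟨g, hg', rfl⟩ := exists_rep g
    rw [gm_mul, gm_eq_one] at hg
    have := hg.self_of_nhds
    simp at this
  · intro a b hab
    obtain ⟨f, hf, rfl⟩ := exists_rep a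
    obtain ⟨g, hg, rfl⟩ := exists_rep b
    by_contra hcon
    push Not at hcon
    have h1 : f 0 = 0 := by
      by_contra h
      exact hcon.1 (isUnit_gm hf h)
    have h2 : g 0 = 0 := by
      by_contra h
      exact hcon.2 (isUnit_gm hg h)
    rw [gm_mul, gm_eq] at hab
    have h3 : HasDerivAt (f * g) 0 0 := by
      have := (hf.differentiableAt.hasDerivAt).mul (hg.differentiableAt.hasDerivAt)
      rw [h1, h2] at this
      simpa using this
    have h4 : HasDerivAt (fun s : ℂ => s) 0 0 := h3.congr_of_eventuallyEq hab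
    exact one_ne_zero ((hasDerivAt_id (0 : ℂ)).unique h4)

instance : IsDiscreteValuationRing AG := by
  refine IsDiscreteValuationRing.ofHasUnitMulPowIrreducibleFactorization ⟨_, irr, ?_⟩
  intro x hx
  obtain ⟨f, hf, rfl⟩ := exists_rep x
  rw [Ne, gm_eq_zero] at hx
  obtain ⟨n, g, hg, hg0, hfg⟩ := hf.exists_eventuallyEq_pow_smul_nonzero_iff.2 hx
  obtain ⟨u, hu⟩ := isUnit_gm hg hg0
  refine ⟨n, u, ?_⟩
  rw [hu]
  have e : gm (fun s => s) analyticAt_id ^ n = gm (fun s => s ^ n) (analyticAt_id.pow n) := by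
    rfl
  rw [e, gm_mul, gm_eq]
  filter_upwards [hfg] with s hs
  rw [hs]
  simp

/-- the map `C` on germs -/
noncomputable def phi : AG →+* Germ (𝓝 (0 : ℂ)) ℂ[X] where
  toFun g := Germ.map C g.1
  map_one' := rfl
  map_zero' := by
    show ((C ∘ (0 : ℂ → ℂ) : ℂ → ℂ[X]) : Germ (𝓝 (0 : ℂ)) ℂ[X]) = ((0 : ℂ → ℂ[X]) : Germ _ _)
    congr 1
    funext s
    simp
  map_mul' := by
    intro a b
    obtain ⟨f, hf, rfl⟩ := exists_rep a
    obtain ⟨g, hg, rfl⟩ := exists_rep b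
    show ((C ∘ (f * g) : ℂ → ℂ[X]) : Germ (𝓝 (0 : ℂ)) ℂ[X]) =
      (((C ∘ f) * (C ∘ g) : ℂ → ℂ[X]) : Germ _ _)
    congr 1
    funext s
    simp
  map_add' := by
    intro a b
    obtain ⟨f, hf, rfl⟩ := exists_rep a
    obtain ⟨g, hg, rfl⟩ := exists_rep b
    show ((C ∘ (f + g) : ℂ → ℂ[X]) : Germ (𝓝 (0 : ℂ)) ℂ[X]) =
      (((C ∘ f) + (C ∘ g) : ℂ → ℂ[X]) : Germ _ _)
    congr 1
    funext s
    simp

theorem phi_gm {f : ℂ → ℂ} (hf : AnalyticAt ℂ f 0) :
    phi (gm f hf) = ((fun s => C (f s) : ℂ → ℂ[X]) : Germ (𝓝 (0 : ℂ)) ℂ[X]) := rfl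

/-- evaluation of polynomials with coefficients in the ring of germs -/
noncomputable def Phi : AG[X] →+* Germ (𝓝 (0 : ℂ)) ℂ[X] :=
  Polynomial.eval₂RingHom phi ((fun _ => X : ℂ → ℂ[X]) : Germ (𝓝 (0 : ℂ)) ℂ[X])

theorem Phi_eq (P : AG[X]) (f : ℕ → ℂ → ℂ) (hf : ∀ k, AnalyticAt ℂ (f k) 0)
    (h : ∀ k, gm (f k) (hf k) = P.coeff k) (N : ℕ) (hN : P.natDegree < N) :
    Phi P = ((fun s => ∑ k ∈ Finset.range N, C (f k s) * X ^ k : ℂ → ℂ[X]) :
      Germ (𝓝 (0 : ℂ)) ℂ[X]) := by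
  have h1 : Phi P = P.eval₂ phi ((fun _ => X : ℂ → ℂ[X]) : Germ (𝓝 (0 : ℂ)) ℂ[X]) := rfl
  rw [h1, eval₂_eq_sum_range' _ hN]
  have h2 : (fun s => ∑ k ∈ Finset.range N, C (f k s) * X ^ k : ℂ → ℂ[X]) =
      ∑ k ∈ Finset.range N, (fun s => C (f k s) * X ^ k : ℂ → ℂ[X]) := by
    funext s
    rw [Finset.sum_apply]
  have h3 : ((∑ k ∈ Finset.range N, (fun s => C (f k s) * X ^ k : ℂ → ℂ[X]) : ℂ → ℂ[X]) :
      Germ (𝓝 (0 : ℂ)) ℂ[X]) = ∑ k ∈ Finset.range N,
        ((fun s => C (f k s) * X ^ k : ℂ → ℂ[X]) : Germ (𝓝 (0 : ℂ)) ℂ[X]) :=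
    map_sum (Germ.coeRingHom (𝓝 (0 : ℂ))) _ _
  rw [h2, h3]
  refine Finset.sum_congr rfl fun k _ => ?_
  rw [← h k, phi_gm]
  rfl

/-- representatives of the coefficients -/
theorem reps (P : AG[X]) : ∃ f : ℕ → ℂ → ℂ, ∃ hf : ∀ k, AnalyticAt ℂ (f k) 0,
    ∀ k, gm (f k) (hf k) = P.coeff k := by
  choose f hf h using fun k => exists_rep (P.coeff k)
  exact ⟨f, hf, h⟩

theorem coeff_range (f : ℕ → ℂ → ℂ) (s : ℂ) (N k : ℕ) :
    (∑ j ∈ Finset.range N, C (f j s) * X ^ j : ℂ[X]).coeff k = if k < N then f k s else 0 := by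
  rw [finsetSum_coeff]
  simp only [coeff_C_mul_X_pow]
  rw [Finset.sum_ite_eq]
  simp

theorem Phi_inj : Function.Injective Phi := by
  rw [injective_iff_map_eq_zero]
  intro P hP
  obtain ⟨f, hf, h⟩ := reps P
  rw [Phi_eq P f hf h (P.natDegree + 1) (Nat.lt_succ_self _)] at hP
  have h0 : (0 : Germ (𝓝 (0 : ℂ)) ℂ[X]) = ((fun _ => 0 : ℂ → ℂ[X]) : Germ (𝓝 (0 : ℂ)) ℂ[X]) := rfl
  rw [h0, Germ.coe_eq] at hP
  ext k
  rw [coeff_zero, ← h k]
  congr 1
  rw [gm_eq_zero]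
  by_cases hk : k < P.natDegree + 1
  · filter_upwards [hP] with s hs
    have := congrArg (fun q : ℂ[X] => q.coeff k) hs
    rw [coeff_range, if_pos hk, coeff_zero] at this
    exact this
  · have : P.coeff k = 0 := coeff_eq_zero_of_natDegree_lt (by omega)
    rw [← h k, gm_eq_zero] at this
    exact this

/-- from families to polynomials over the ring of germs -/
theorem of_fam (p : ℂ → ℂ[X]) (hp : AnFam p) :
    ∃ P : AG[X], P.Monic ∧ Phi P = ((p : ℂ → ℂ[X]) : Germ (𝓝 (0 : ℂ)) ℂ[X]) := by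
  obtain ⟨⟨n, hn⟩, ha⟩ := hp
  set P : AG[X] := ∑ k ∈ Finset.range (n + 1), C (gm _ (ha k)) * X ^ k with hP
  have hc : ∀ k, P.coeff k = if k < n + 1 then gm _ (ha k) else 0 := by
    intro k
    rw [hP, finsetSum_coeff]
    simp only [coeff_C_mul_X_pow]
    rw [Finset.sum_ite_eq]
    simp
  have hc' : ∀ k, gm _ (ha k) = P.coeff k := by
    intro k
    rw [hc]
    split_ifs with hk
    · rfl
    · rw [gm_eq_zero]
      filter_upwards [hn] with s hs
      exact coeff_eq_zero_of_natDegree_lt (by omega)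
  have hmon : P.coeff n = 1 := by
    rw [← hc', gm_eq_one]
    filter_upwards [hn] with s hs
    have := hs.1.coeff_natDegree
    rwa [hs.2] at this
  have hdeg : P.natDegree ≤ n := by
    rw [natDegree_le_iff_coeff_eq_zero]
    intro k hk
    rw [hc, if_neg (by omega)]
  refine ⟨P, monic_of_natDegree_le_of_coeff_eq_one n hdeg hmon, ?_⟩
  rw [Phi_eq P _ ha hc' (n + 1) (by omega), Germ.coe_eq]
  filter_upwards [hn] with s hs
  ext k
  rw [coeff_range (fun k s => (p s).coeff k) s]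
  split_ifs with hk
  · rfl
  · exact (coeff_eq_zero_of_natDegree_lt (by omega)).symm

/-- from monic polynomials over the ring of germs to families -/
theorem to_fam (P : AG[X]) (hP : P.Monic) :
    ∃ p : ℂ → ℂ[X], AnFam p ∧ Phi P = ((p : ℂ → ℂ[X]) : Germ (𝓝 (0 : ℂ)) ℂ[X]) := by
  obtain ⟨f, hf, h⟩ := reps P
  refine ⟨fun s => ∑ k ∈ Finset.range (P.natDegree + 1), C (f k s) * X ^ k,
    ⟨⟨P.natDegree, ?_⟩, ?_⟩, Phi_eq P f hf h _ (Nat.lt_succ_self _)⟩
  · have h1 : gm (f P.natDegree) (hf _) = 1 := by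
      rw [h]; exact hP
    rw [gm_eq_one] at h1
    filter_upwards [h1] with s hs
    have hd : (∑ k ∈ Finset.range (P.natDegree + 1), C (f k s) * X ^ k : ℂ[X]).natDegree ≤
        P.natDegree := by
      rw [natDegree_le_iff_coeff_eq_zero]
      intro k hk
      rw [coeff_range, if_neg (by omega)]
    have hl : (∑ k ∈ Finset.range (P.natDegree + 1), C (f k s) * X ^ k : ℂ[X]).coeff
        P.natDegree = 1 := by
      rw [coeff_range, if_pos (Nat.lt_succ_self _), hs]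
    refine ⟨monic_of_natDegree_le_of_coeff_eq_one _ hd hl, ?_⟩
    refine le_antisymm hd ?_
    exact le_natDegree_of_ne_zero (by rw [hl]; exact one_ne_zero)
  · intro k
    simp only [coeff_range]
    split_ifs with hk
    · exact hf k
    · exact analyticAt_const

/-- coprimality over the fraction field -/
theorem bezout (b c : AG[X]) (hb : b.Monic) (hc : c.Monic) (h : IsRelPrime b c) :
    ∃ (u v : AG[X]) (r : AG), r ≠ 0 ∧ u * b + v * c = C r := by
  have hinj : Function.Injective (algebraMap AG (FractionRing AG)) :=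
    IsFractionRing.injective AG (FractionRing AG)
  have h1 : IsRelPrime (b.map (algebraMap AG (FractionRing AG)))
      (c.map (algebraMap AG (FractionRing AG))) := by
    intro g hgb hgc
    obtain ⟨g', hg'⟩ := IsIntegrallyClosed.eq_map_mul_C_of_dvd (FractionRing AG) hb hgb
    have hg0 : g ≠ 0 := ne_zero_of_dvd_ne_zero (hb.map _).ne_zero hgb
    have hlc : g.leadingCoeff ≠ 0 := leadingCoeff_ne_zero.2 hg0
    have hm' : (g'.map (algebraMap AG (FractionRing AG))).Monic := by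
      have := congrArg leadingCoeff hg'
      rw [leadingCoeff_mul, leadingCoeff_C] at this
      exact mul_right_cancel₀ hlc (this.trans (one_mul _).symm)
    have hm : g'.Monic := monic_of_injective hinj hm'
    have d1 : g' ∣ b := hb.dvd_of_fraction_map_dvd_fraction_map (K := FractionRing AG) hm
      ((Dvd.intro _ hg').trans hgb)
    have d2 : g' ∣ c := hc.dvd_of_fraction_map_dvd_fraction_map (K := FractionRing AG) hm
      ((Dvd.intro _ hg').trans hgc)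
    have hu : IsUnit g' := h d1 d2
    rw [← hg']
    exact (hu.map (mapRingHom (algebraMap AG (FractionRing AG)))).mul
      (isUnit_C.2 (isUnit_iff_ne_zero.2 hlc))
  obtain ⟨u, v, huv⟩ := h1.isCoprime
  obtain ⟨r₁, hr₁, e₁⟩ := IsLocalization.integerNormalization_spec (nonZeroDivisors AG) u
  obtain ⟨r₂, hr₂, e₂⟩ := IsLocalization.integerNormalization_spec (nonZeroDivisors AG) v
  refine ⟨C r₂ * IsLocalization.integerNormalization (nonZeroDivisors AG) u,
    C r₁ * IsLocalization.integerNormalization (nonZeroDivisors AG) v, r₁ * r₂,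
    mul_ne_zero (nonZeroDivisors.ne_zero hr₁) (nonZeroDivisors.ne_zero hr₂), ?_⟩
  apply map_injective _ hinj
  rw [Polynomial.map_add, Polynomial.map_mul, Polynomial.map_mul, Polynomial.map_mul,
    Polynomial.map_mul, e₁, e₂, map_C, map_C, map_C, map_mul, C_mul]
  have s1 : r₁ • u = C (algebraMap AG (FractionRing AG) r₁) * u := by
    rw [← algebraMap_smul (FractionRing AG), smul_eq_C_mul]
  have s2 : r₂ • v = C (algebraMap AG (FractionRing AG) r₂) * v := by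
    rw [← algebraMap_smul (FractionRing AG), smul_eq_C_mul]
  rw [s1, s2]
  linear_combination (C (algebraMap AG (FractionRing AG) r₁) *
    C (algebraMap AG (FractionRing AG) r₂)) * huv

theorem alg : T_ALG := by
  intro p₁ p₂ q₁ q₂ hp₁ hp₂ hq₁ hq₂ hmul
  obtain ⟨P₁, mP₁, eP₁⟩ := of_fam p₁ hp₁
  obtain ⟨P₂, mP₂, eP₂⟩ := of_fam p₂ hp₂
  obtain ⟨Q₁, mQ₁, eQ₁⟩ := of_fam q₁ hq₁
  obtain ⟨Q₂, mQ₂, eQ₂⟩ := of_fam q₂ hq₂
  have hPQ : P₁ * P₂ = Q₁ * Q₂ := by
    apply Phi_inj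
    rw [map_mul, map_mul, eP₁, eP₂, eQ₁, eQ₂]
    exact Germ.coe_eq.2 hmul
  obtain ⟨b', c', a', hrel, h1, h2⟩ :=
    UniqueFactorizationMonoid.exists_reduced_factors P₁ mP₁.ne_zero Q₁
  -- normalisation
  have l1 : a'.leadingCoeff * b'.leadingCoeff = 1 := by
    rw [← leadingCoeff_mul, h1]; exact mP₁
  have l2 : a'.leadingCoeff * c'.leadingCoeff = 1 := by
    rw [← leadingCoeff_mul, h2]; exact mQ₁
  obtain ⟨A, mA, B, mB, D, mD, hrel', h1', h2'⟩ : ∃ A : AG[X], A.Monic ∧ ∃ B : AG[X], B.Monic ∧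
      ∃ D : AG[X], D.Monic ∧ IsRelPrime B D ∧ A * B = P₁ ∧ A * D = Q₁ := by
    refine ⟨C b'.leadingCoeff * a', ?_, C a'.leadingCoeff * b', ?_, C a'.leadingCoeff * c', ?_,
      ?_, ?_, ?_⟩
    · rw [Monic, leadingCoeff_mul, leadingCoeff_C, mul_comm]; exact l1
    · rw [Monic, leadingCoeff_mul, leadingCoeff_C]; exact l1
    · rw [Monic, leadingCoeff_mul, leadingCoeff_C]; exact l2
    · have hu : IsUnit (C a'.leadingCoeff : AG[X]) := isUnit_C.2 (IsUnit.of_mul_eq_one _ l1)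
      intro g hg1 hg2
      exact hrel ((hu.dvd_mul_left).1 hg1) ((hu.dvd_mul_left).1 hg2)
    · have : (C a'.leadingCoeff * C b'.leadingCoeff : AG[X]) = 1 := by
        rw [← C_mul, l1, C_1]
      linear_combination (a' * b') * this + h1
    · have : (C a'.leadingCoeff * C b'.leadingCoeff : AG[X]) = 1 := by
        rw [← C_mul, l1, C_1]
      linear_combination (a' * c') * this + h2
  have h3 : B * P₂ = D * Q₂ := by
    apply mul_left_cancel₀ mA.ne_zero
    rw [← mul_assoc, ← mul_assoc, h1', h2', hPQ]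
  have h4 : D ∣ B * P₂ := ⟨Q₂, h3⟩
  obtain ⟨E, hE⟩ := (hrel'.symm).dvd_of_dvd_mul_left h4
  have mE : E.Monic := by
    rw [hE] at mP₂
    exact mD.of_mul_monic_left mP₂
  have h5 : Q₂ = B * E := by
    apply mul_left_cancel₀ mD.ne_zero
    rw [← h3, hE]
    ring
  obtain ⟨a, ha, ea⟩ := to_fam A mA
  obtain ⟨b, hb, eb⟩ := to_fam B mB
  obtain ⟨c, hc, ec⟩ := to_fam D mD
  obtain ⟨d, hd, ed⟩ := to_fam E mE
  refine ⟨a, b, c, d, ha, hb, hc, hd, ?_, ?_⟩
  · have k1 : ∀ᶠ s in 𝓝 (0 : ℂ), p₁ s = a s * b s := by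
      have := congrArg Phi h1'
      rw [map_mul, ea, eb, eP₁] at this
      exact (Germ.coe_eq.1 this).symm
    have k2 : ∀ᶠ s in 𝓝 (0 : ℂ), q₁ s = a s * c s := by
      have := congrArg Phi h2'
      rw [map_mul, ea, ec, eQ₁] at this
      exact (Germ.coe_eq.1 this).symm
    have k3 : ∀ᶠ s in 𝓝 (0 : ℂ), p₂ s = c s * d s := by
      have := congrArg Phi hE
      rw [map_mul, ec, ed, eP₂] at this
      exact (Germ.coe_eq.1 this)
    have k4 : ∀ᶠ s in 𝓝 (0 : ℂ), q₂ s = b s * d s := by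
      have := congrArg Phi h5
      rw [map_mul, eb, ed, eQ₂] at this
      exact (Germ.coe_eq.1 this)
    filter_upwards [k1, k2, k3, k4] with s s1 s2 s3 s4
    exact ⟨s1, s2, s3, s4⟩
  · obtain ⟨u, v, r, hr, huv⟩ := bezout B D mB mD hrel'
    obtain ⟨fr, hfr, rfl⟩ := exists_rep r
    obtain ⟨fu, hfu, hu⟩ := reps u
    obtain ⟨fv, hfv, hv⟩ := reps v
    have e := congrArg Phi huv
    rw [map_add, map_mul, map_mul, eb, ec, Phi_eq u fu hfu hu _ (Nat.lt_succ_self _),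
      Phi_eq v fv hfv hv _ (Nat.lt_succ_self _)] at e
    have e2 : Phi (C (gm fr hfr)) = ((fun s => C (fr s) : ℂ → ℂ[X]) : Germ (𝓝 (0 : ℂ)) ℂ[X]) := by
      have : Phi (C (gm fr hfr)) = phi (gm fr hfr) := eval₂_C _ _
      rw [this, phi_gm]
    rw [e2] at e
    have e3 := Germ.coe_eq.1 e
    have e4 : ∀ᶠ s in 𝓝[≠] (0 : ℂ), fr s ≠ 0 := by
      rcases hfr.eventually_eq_zero_or_eventually_ne_zero with h | h
      · exact absurd ((gm_eq_zero hfr).2 h) hr
      · exact h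
    have e5 := e3.filter_mono (nhdsWithin_le_nhds (s := {(0 : ℂ)}ᶜ))
    filter_upwards [e4, e5] with s s1 s2
    refine ⟨C (fr s)⁻¹ * ∑ k ∈ Finset.range (u.natDegree + 1), C (fu k s) * X ^ k,
      C (fr s)⁻¹ * ∑ k ∈ Finset.range (v.natDegree + 1), C (fv k s) * X ^ k, ?_⟩
    have s2' : (∑ k ∈ Finset.range (u.natDegree + 1), C (fu k s) * X ^ k) * b s +
      (∑ k ∈ Finset.range (v.natDegree + 1), C (fv k s) * X ^ k) * c s = C (fr s) := s2
    have s3 : (C (fr s)⁻¹ * C (fr s) : ℂ[X]) = 1 := by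
      rw [← C_mul, inv_mul_cancel₀ s1, C_1]
    linear_combination (C (fr s)⁻¹) * s2' + s3

end Pool.Agent.H59.BP.ALG
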