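import Pool.Agent.H66.BP.Targets

/-! # Cluster polynomials (module WP) -/

set_option autoImplicit false

open Filter Topology Polynomial Metric MeasureTheory
open scoped Real
open Pool.Agent.H66.BP

namespace Pool.Agent.H59.BP.WP

/-! ### holomorphic parameter integrals -/

theorem param_int (g : ℂ → ℝ → ℂ) (s₀ : ℂ) (r : ℝ) (hr : 0 < r) (a b : ℝ)
    (hc : ContinuousOn (fun p : ℂ × ℝ => g p.1 p.2) (closedBall s₀ r ×ˢ Set.univ))
    (hd : ∀ θ, DiffContOnCl ℂ (fun s => g s θ) (ball s₀ r)) :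
    AnalyticAt ℂ (fun s => ∫ θ in a..b, g s θ) s₀ := by
  set H : ℂ → ℂ := fun s => ∫ θ in a..b, g s θ with hH
  -- the values on the circle
  have hcirc : Continuous (fun p : ℝ × ℝ => g (circleMap s₀ r p.1) p.2) := by
    have h1 : Continuous (fun p : ℝ × ℝ => ((circleMap s₀ r p.1, p.2) : ℂ × ℝ)) := by
      fun_prop
    refine hc.comp_continuous h1 fun p => ?_
    exact ⟨circleMap_mem_closedBall _ hr.le _, Set.mem_univ _⟩
  have hHc : Continuous (fun φ : ℝ => H (circleMap s₀ r φ)) := by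
    simp only [hH]
    exact intervalIntegral.continuous_parametric_intervalIntegral_of_continuous' (by exact hcirc) a b
  have hci : CircleIntegrable H s₀ r := hHc.intervalIntegrable _ _
  have hp := hasFPowerSeriesOn_cauchy_integral (R := ⟨r, hr.le⟩) hci (by exact_mod_cast hr)
  have han := hp.analyticAt
  refine han.congr ?_
  filter_upwards [ball_mem_nhds s₀ hr] with s hs
  have e1 : ∀ θ, ((2 * π * Complex.I : ℂ)⁻¹ • ∮ z in C(s₀, r), (z - s)⁻¹ • g z θ) = g s θ :=
    fun θ => (hd θ).two_pi_i_inv_smul_circleIntegral_sub_inv_smul hs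
  show (2 * π * Complex.I : ℂ)⁻¹ • ∮ z in C(s₀, r), (z - s)⁻¹ • H z = ∫ θ in a..b, g s θ
  simp_rw [← e1]
  rw [intervalIntegral.integral_smul]
  congr 1
  simp only [circleIntegral, hH]
  rw [intervalIntegral_intervalIntegral_swap]
  · refine intervalIntegral.integral_congr fun φ _ => ?_
    simp only [smul_eq_mul]
    rw [intervalIntegral.integral_const_mul, intervalIntegral.integral_const_mul]
  · have hcont : Continuous (Function.uncurry fun θ φ : ℝ => deriv (circleMap s₀ r) φ •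
        (circleMap s₀ r φ - s)⁻¹ • g (circleMap s₀ r φ) θ) := by
      have h2 : Continuous (fun p : ℝ × ℝ => g (circleMap s₀ r p.2) p.1) :=
        hcirc.comp continuous_swap
      have h3 : Continuous (fun p : ℝ × ℝ => (circleMap s₀ r p.2 - s)⁻¹) := by
        refine Continuous.inv₀ (by fun_prop) fun p => ?_
        rw [sub_ne_zero]
        exact circleMap_ne_mem_ball hs _
      have h4 : Continuous (fun p : ℝ × ℝ => deriv (circleMap s₀ r) p.2) := by
        simp only [deriv_circleMap]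
        fun_prop
      exact h4.smul (h3.smul h2)
    have hK : IsCompact (Set.uIcc a b ×ˢ Set.uIcc 0 (2 * π)) := isCompact_uIcc.prod isCompact_uIcc
    refine (hcont.continuousOn.integrableOn_compact hK).mono_set ?_
    exact Set.prod_mono Set.uIoc_subset_uIcc Set.uIoc_subset_uIcc

/-- the derivative in the second variable -/
noncomputable def D (f : ℂ × ℂ → ℂ) (s ζ : ℂ) : ℂ := deriv (fun ξ => f (s, ξ)) ζ

theorem D_eq (f : ℂ × ℂ → ℂ) (hf : Differentiable ℂ f) (s ζ : ℂ) :
    D f s ζ = (2 * π * Complex.I : ℂ)⁻¹ * ∫ θ in (0 : ℝ)..2 * π,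
      (circleMap 0 1 θ * Complex.I) * (((circleMap 0 1 θ) ^ 2)⁻¹ *
        f (s, ζ + circleMap 0 1 θ)) := by
  have hfs : Differentiable ℂ (fun ξ => f (s, ξ)) :=
    hf.comp ((differentiable_const s).prodMk differentiable_id)
  have h := Complex.two_pi_I_inv_smul_circleIntegral_sub_sq_inv_smul_of_differentiable
    (isOpen_univ) (Set.subset_univ (closedBall ζ 1)) hfs.differentiableOn
    (mem_ball_self one_pos)
  rw [D, ← h, smul_eq_mul]
  congr 1
  simp only [circleIntegral, deriv_circleMap, smul_eq_mul]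
  refine intervalIntegral.integral_congr fun θ _ => ?_
  have e : circleMap ζ 1 θ = ζ + circleMap 0 1 θ := by simp [circleMap]
  simp only [e, add_sub_cancel_left]

theorem D_cont (f : ℂ × ℂ → ℂ) (hf : Differentiable ℂ f) :
    Continuous (fun p : ℂ × ℂ => D f p.1 p.2) := by
  simp_rw [D_eq f hf]
  refine continuous_const.mul ?_
  refine intervalIntegral.continuous_parametric_intervalIntegral_of_continuous' ?_ _ _
  have h1 : Continuous (fun q : (ℂ × ℂ) × ℝ => f (q.1.1, q.1.2 + circleMap 0 1 q.2)) :=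
    hf.continuous.comp (by fun_prop)
  have h2 : Continuous (fun q : (ℂ × ℂ) × ℝ => ((circleMap 0 1 q.2 : ℂ) ^ 2)⁻¹) := by
    refine Continuous.inv₀ (by fun_prop) fun q => ?_
    exact pow_ne_zero _ (circleMap_ne_center one_ne_zero)
  have h3 : Continuous (fun q : (ℂ × ℂ) × ℝ => (circleMap 0 1 q.2 * Complex.I : ℂ)) := by
    fun_prop
  exact h3.mul (h2.mul h1)

theorem D_diff (f : ℂ × ℂ → ℂ) (hf : Differentiable ℂ f) (ζ : ℂ) :
    Differentiable ℂ (fun s => D f s ζ) := by
  intro s₀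
  simp_rw [D_eq f hf]
  refine DifferentiableAt.const_mul ?_ _
  refine (param_int _ s₀ 1 one_pos _ _ ?_ ?_).differentiableAt
  · have h1 : Continuous (fun q : ℂ × ℝ => f (q.1, ζ + circleMap 0 1 q.2)) :=
      hf.continuous.comp (by fun_prop)
    have h2 : Continuous (fun q : ℂ × ℝ => ((circleMap 0 1 q.2 : ℂ) ^ 2)⁻¹) := by
      refine Continuous.inv₀ (by fun_prop) fun q => ?_
      exact pow_ne_zero _ (circleMap_ne_center one_ne_zero)
    have h3 : Continuous (fun q : ℂ × ℝ => (circleMap 0 1 q.2 * Complex.I : ℂ)) := by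
      fun_prop
    exact (h3.mul (h2.mul h1)).continuousOn
  · intro θ
    refine Differentiable.diffContOnCl ?_
    refine (differentiable_const _).mul ((differentiable_const _).mul ?_)
    exact hf.comp (differentiable_id.prodMk (differentiable_const _))

/-- the power sums of the zeros are analytic -/
theorem Q_an (f : ℂ × ℂ → ℂ) (hf : Differentiable ℂ f) (ζ₀ : ℂ) (ε : ℝ) (δ : ℝ) (hδ : 0 < δ)
    (hne : ∀ s ∈ closedBall (0 : ℂ) δ, ∀ ζ ∈ sphere ζ₀ |ε|, f (s, ζ) ≠ 0) (φ : ℂ → ℂ)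
    (hφ : Continuous φ) :
    AnalyticAt ℂ (fun s => ∮ z in C(ζ₀, ε), φ z * (D f s z / f (s, z))) 0 := by
  simp only [circleIntegral]
  refine param_int _ 0 δ hδ _ _ ?_ ?_
  · have hD : Continuous (fun q : ℂ × ℝ => D f q.1 (circleMap ζ₀ ε q.2)) :=
      (D_cont f hf).comp (by fun_prop : Continuous (fun q : ℂ × ℝ => (q.1, circleMap ζ₀ ε q.2)))
    have hF : Continuous (fun q : ℂ × ℝ => f (q.1, circleMap ζ₀ ε q.2)) :=
      hf.continuous.comp (by fun_prop)
    have h4 : Continuous (fun q : ℂ × ℝ => deriv (circleMap ζ₀ ε) q.2) := by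
      simp only [deriv_circleMap]
      fun_prop
    have h5 : Continuous (fun q : ℂ × ℝ => φ (circleMap ζ₀ ε q.2)) :=
      hφ.comp (by fun_prop)
    refine h4.continuousOn.smul (h5.continuousOn.mul (hD.continuousOn.div hF.continuousOn ?_))
    rintro ⟨s, θ⟩ ⟨hs, -⟩
    exact hne s hs _ (circleMap_mem_sphere' _ _ _)
  · intro θ
    refine DifferentiableOn.diffContOnCl ?_
    intro s hs
    have hs' : s ∈ closedBall (0 : ℂ) δ := closure_ball_subset_closedBall hs
    refine DifferentiableAt.differentiableWithinAt ?_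
    refine (differentiableAt_const _).mul ((differentiableAt_const _).mul ?_)
    refine (D_diff f hf _ s).div ?_ (hne s hs' _ (circleMap_mem_sphere' _ _ _))
    exact (hf.comp (differentiable_id.prodMk (differentiable_const _))) s

/-! ### Newton identities -/

theorem newton {μ : ℕ} (r : ℂ → Fin μ → ℂ)
    (h : ∀ k, AnalyticAt ℂ (fun s => ∑ i, r s i ^ k) 0) (k : ℕ) :
    AnalyticAt ℂ (fun s => (Finset.univ.val.map (r s)).esymm k) 0 := by
  induction k using Nat.strong_induction_on with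
  | _ k ih =>
    rcases Nat.eq_zero_or_pos k with rfl | hk
    · simp only [Multiset.esymm, Multiset.powersetCard_zero_left, Multiset.map_singleton,
        Multiset.prod_zero, Multiset.sum_singleton]
      exact analyticAt_const
    have e : ∀ s, (Finset.univ.val.map (r s)).esymm k = (k : ℂ)⁻¹ * ((-1) ^ (k + 1) *
        ∑ a ∈ Finset.HasAntidiagonal.antidiagonal k with a.1 < k, (-1) ^ a.1 *
          (Finset.univ.val.map (r s)).esymm a.1 * ∑ i, r s i ^ a.2) := by
      intro s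
      have h1 := congrArg (MvPolynomial.aeval (r s)) (MvPolynomial.mul_esymm_eq_sum (Fin μ) ℂ k)
      simp only [map_mul, map_sum, map_pow, map_neg, map_one, map_natCast,
        MvPolynomial.aeval_esymm_eq_multiset_esymm, MvPolynomial.psum, MvPolynomial.aeval_X] at h1
      have hk' : (k : ℂ) ≠ 0 := by exact_mod_cast hk.ne'
      rw [← h1, ← mul_assoc, inv_mul_cancel₀ hk', one_mul]
    simp_rw [e]
    refine analyticAt_const.mul (analyticAt_const.mul ?_)
    refine Finset.analyticAt_fun_sum _ fun a ha => ?_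
    rw [Finset.mem_filter] at ha
    exact (analyticAt_const.mul (ih a.1 ha.2)).mul (h a.2)

/-! ### the multiset of the zeros in a disc -/

theorem fin_zeros (g : ℂ → ℂ) (hg : Differentiable ℂ g) (h : ∃ ζ, g ζ ≠ 0) (c : ℂ) (R : ℝ) :
    {ζ | ζ ∈ ball c R ∧ g ζ = 0}.Finite := by
  by_contra hinf
  obtain ⟨x, -, hx⟩ := Set.Infinite.exists_accPt_of_subset_isCompact hinf
    (isCompact_closedBall c R) (fun ζ hζ => ball_subset_closedBall hζ.1)
  rw [accPt_iff_frequently] at hx
  have h1 : ∃ᶠ z in 𝓝[≠] x, g z = (fun _ => 0 : ℂ → ℂ) z := by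
    rw [frequently_nhdsWithin_iff]
    exact hx.mono fun y hy => ⟨hy.2.2, hy.1⟩
  have h2 : g = fun _ => 0 := AnalyticOnNhd.eq_of_frequently_eq
    (fun z _ => hg.analyticAt z) (fun z _ => analyticAt_const) h1
  obtain ⟨ζ, hζ⟩ := h
  exact hζ (by rw [h2])

theorem ord_eq_zero (g : ℂ → ℂ) (hg : Differentiable ℂ g) (ζ : ℂ) (h : g ζ ≠ 0) :
    analyticOrderNatAt g ζ = 0 := by
  rw [analyticOrderNatAt, (hg.analyticAt ζ).analyticOrderAt_eq_zero.2 h]
  rfl

theorem ord_pos (g : ℂ → ℂ) (hg : Differentiable ℂ g) (hne : ∃ ζ, g ζ ≠ 0) (ζ : ℂ) (h : g ζ = 0) :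
    analyticOrderNatAt g ζ ≠ 0 := by
  have h1 : analyticOrderAt g ζ ≠ 0 := fun h' =>
    (hg.analyticAt ζ).analyticOrderAt_eq_zero.1 h' h
  have h2 : analyticOrderAt g ζ ≠ ⊤ := by
    intro h'
    rw [analyticOrderAt_eq_top] at h'
    have h3 : g = fun _ => 0 := AnalyticOnNhd.eq_of_eventuallyEq
      (fun z _ => hg.analyticAt z) (fun z _ => analyticAt_const) h'
    obtain ⟨ζ, hζ⟩ := hne
    exact hζ (by rw [h3])
  rw [analyticOrderNatAt]
  intro h3
  rcases ENat.toNat_eq_zero.1 h3 with h4 | h4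
  · exact h1 h4
  · exact h2 h4

theorem exists_mult (g : ℂ → ℂ) (hg : Differentiable ℂ g) (h : ∃ ζ, g ζ ≠ 0) (c : ℂ) (R : ℝ) :
    ∃ M : Multiset ℂ, ∀ ζ, (ζ ∈ ball c R → M.count ζ = analyticOrderNatAt g ζ) ∧
      (ζ ∉ ball c R → M.count ζ = 0) := by
  classical
  have hfin : (Function.support fun ζ => if ζ ∈ ball c R then analyticOrderNatAt g ζ else 0).Finite := by
    refine (fin_zeros g hg h c R).subset fun ζ hζ => ?_
    rw [Function.mem_support] at hζ
    by_cases hb : ζ ∈ ball c R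
    · refine ⟨hb, ?_⟩
      by_contra hne
      rw [if_pos hb, ord_eq_zero g hg ζ hne] at hζ
      exact hζ rfl
    · rw [if_neg hb] at hζ
      exact absurd rfl hζ
  refine ⟨Finsupp.toMultiset (Finsupp.ofSupportFinite _ hfin), fun ζ => ⟨fun hb => ?_, fun hb => ?_⟩⟩
  · rw [Finsupp.count_toMultiset, Finsupp.ofSupportFinite_coe, if_pos hb]
  · rw [Finsupp.count_toMultiset, Finsupp.ofSupportFinite_coe, if_neg hb]

theorem sum_mult (g : ℂ → ℂ) (c : ℂ) (R : ℝ) (M : Multiset ℂ)
    (hM : ∀ ζ, (ζ ∈ ball c R → M.count ζ = analyticOrderNatAt g ζ) ∧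
      (ζ ∉ ball c R → M.count ζ = 0)) (φ : ℂ → ℂ) :
    (M.map φ).sum = ∑ᶠ z ∈ ball c R, (analyticOrderNatAt g z : ℂ) * φ z := by
  classical
  rw [Finset.sum_multiset_map_count, finsum_mem_def]
  symm
  rw [finsum_eq_sum_of_support_subset (s := M.toFinset)]
  · refine Finset.sum_congr rfl fun ζ hζ => ?_
    rw [Multiset.mem_toFinset] at hζ
    have hb : ζ ∈ ball c R := by
      by_contra hb
      exact Multiset.count_ne_zero.2 hζ ((hM ζ).2 hb)
    rw [Set.indicator_of_mem hb, (hM ζ).1 hb, nsmul_eq_mul]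
  · intro ζ hζ
    rw [Function.mem_support] at hζ
    have hb : ζ ∈ ball c R := by
      by_contra hb
      exact hζ (Set.indicator_of_notMem hb _)
    rw [Set.indicator_of_mem hb] at hζ
    rw [Finset.mem_coe, Multiset.mem_toFinset, ← Multiset.count_ne_zero, (hM ζ).1 hb]
    intro h0
    rw [h0] at hζ
    simp at hζ

theorem exists_vec (n : ℕ) (M : Multiset ℂ) (h : M.card = n) :
    ∃ r : Fin n → ℂ, Finset.univ.val.map r = M := by
  subst h
  refine Quot.inductionOn M fun l => ?_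
  refine ⟨fun i => l.get i, ?_⟩
  have := Fin.univ_val_map (fun i : Fin l.length => l.get i)
  rw [List.ofFn_get] at this
  exact this

/-- Module WP. -/
theorem wp (hAP : T_AP) : T_WP := by
  intro f hf ζ₀ hne
  have hfs : ∀ s, Differentiable ℂ (fun ξ => f (s, ξ)) := fun s =>
    hf.comp ((differentiable_const s).prodMk differentiable_id)
  -- isolated zero
  have h1 : ∀ᶠ ζ in 𝓝[≠] ζ₀, f (0, ζ) ≠ 0 := by
    rcases ((hfs 0).analyticAt ζ₀).eventually_eq_zero_or_eventually_ne_zero with h | h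
    · exfalso
      have h3 : (fun ξ => f (0, ξ)) = fun _ => 0 := AnalyticOnNhd.eq_of_eventuallyEq
        (fun z _ => (hfs 0).analyticAt z) (fun z _ => analyticAt_const) h
      obtain ⟨ζ, hζ⟩ := hne
      exact hζ (congrFun h3 ζ)
    · exact h
  rw [eventually_nhdsWithin_iff, Metric.eventually_nhds_iff] at h1
  obtain ⟨ε₁, hε₁, h1⟩ := h1
  refine ⟨ε₁, hε₁, fun ε hε hεε => ?_⟩
  have hs0 : ∀ ζ ∈ sphere ζ₀ ε, f (0, ζ) ≠ 0 := by
    intro ζ hζ
    rw [mem_sphere] at hζ
    refine h1 (by rw [hζ]; exact hεε) ?_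
    rintro rfl
    rw [dist_self] at hζ
    exact hε.ne hζ
  -- tube
  have htube : ∀ᶠ s in 𝓝 (0 : ℂ), ∀ ζ ∈ sphere ζ₀ ε, f (s, ζ) ≠ 0 := by
    refine (isCompact_sphere ζ₀ ε).eventually_forall_of_forall_eventually fun ζ hζ => ?_
    exact hf.continuous.continuousAt.eventually_ne (hs0 ζ hζ)
  obtain ⟨δ', hδ', hδsub⟩ := Metric.eventually_nhds_iff_ball.1 htube
  obtain ⟨δ, hδ, hδlt⟩ := exists_between hδ'
  have hcb : ∀ s ∈ closedBall (0 : ℂ) δ, ∀ ζ ∈ sphere ζ₀ ε, f (s, ζ) ≠ 0 := fun s hs =>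
    hδsub s (mem_ball.2 (lt_of_le_of_lt (mem_closedBall.1 hs) hδlt))
  have hex : ∀ s ∈ closedBall (0 : ℂ) δ, ∃ ζ, f (s, ζ) ≠ 0 := by
    intro s hs
    refine ⟨ζ₀ + ε, hcb s hs _ ?_⟩
    rw [mem_sphere, dist_self_add_left, Complex.norm_real, Real.norm_of_nonneg hε.le]
  -- the multisets
  have hM' : ∀ s, ∃ M : Multiset ℂ, s ∈ closedBall (0 : ℂ) δ →
      ∀ ζ, (ζ ∈ ball ζ₀ ε → M.count ζ = analyticOrderNatAt (fun ξ => f (s, ξ)) ζ) ∧
        (ζ ∉ ball ζ₀ ε → M.count ζ = 0) := by
    intro s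
    by_cases hs : s ∈ closedBall (0 : ℂ) δ
    · obtain ⟨M, hM⟩ := exists_mult _ (hfs s) (hex s hs) ζ₀ ε
      exact ⟨M, fun _ => hM⟩
    · exact ⟨0, fun h => absurd h hs⟩
  choose M hM using hM'
  -- power sums
  have hpow : ∀ k : ℕ, AnalyticAt ℂ (fun s => ((M s).map (fun z => z ^ k)).sum) 0 := by
    intro k
    have h2 := Q_an f hf ζ₀ ε δ hδ (by rw [abs_of_pos hε]; exact hcb) (fun z => z ^ k)
      (continuous_pow k)
    have h3 := (analyticAt_const (v := (2 * π * Complex.I : ℂ)⁻¹)).mul h2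
    refine h3.congr ?_
    filter_upwards [closedBall_mem_nhds (0 : ℂ) hδ] with s hs
    have h4 := hAP (fun ξ => f (s, ξ)) (fun z => z ^ k) ζ₀ ε hε
      (fun z _ => (hfs s).analyticAt z) (differentiable_pow k) (hcb s hs)
    rw [← sum_mult _ ζ₀ ε (M s) (hM s hs) (fun z => z ^ k)] at h4
    have h5 : (∮ z in C(ζ₀, ε), z ^ k * (D f s z / f (s, z))) =
      2 * π * Complex.I * ((M s).map (fun z => z ^ k)).sum := h4
    show (2 * π * Complex.I : ℂ)⁻¹ * (∮ z in C(ζ₀, ε), z ^ k * (D f s z / f (s, z))) = _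
    rw [h5, ← mul_assoc, inv_mul_cancel₀ Complex.two_pi_I_ne_zero, one_mul]
  -- constant number of zeros
  have hcard : ∀ᶠ s in 𝓝 (0 : ℂ), (M s).card = (M 0).card := by
    have h0 : ∀ s, ((M s).map (fun z => z ^ 0)).sum = ((M s).card : ℂ) := by
      intro s
      simp
    have h2 := (hpow 0).continuousAt
    have h3 : ContinuousAt (fun s => ((M s).card : ℂ)) 0 := by
      refine h2.congr ?_
      exact Eventually.of_forall h0
    have h4 := Metric.continuousAt_iff'.1 h3 1 one_pos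
    filter_upwards [h4] with s hs
    rw [dist_eq_norm] at hs
    have h5 : ((((M s).card : ℤ) - ((M 0).card : ℤ) : ℤ) : ℂ) = ((M s).card : ℂ) - ((M 0).card : ℂ) := by
      push_cast
      ring
    rw [← h5, Complex.norm_intCast] at hs
    have h6 : |((M s).card : ℤ) - ((M 0).card : ℤ)| < 1 := by exact_mod_cast hs
    have := Int.abs_lt_one_iff.1 h6
    omega
  set μ := (M 0).card with hμ
  -- vectors
  have hr' : ∀ s, ∃ r : Fin μ → ℂ, (M s).card = μ → Finset.univ.val.map r = M s := by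
    intro s
    by_cases h : (M s).card = μ
    · obtain ⟨r, hr⟩ := exists_vec μ (M s) h
      exact ⟨r, fun _ => hr⟩
    · exact ⟨fun _ => 0, fun h' => absurd h' h⟩
  choose r hr using hr'
  have hpow' : ∀ k : ℕ, AnalyticAt ℂ (fun s => ∑ i, r s i ^ k) 0 := by
    intro k
    refine (hpow k).congr ?_
    filter_upwards [hcard] with s hs
    rw [← hr s hs, Multiset.map_map]
    rfl
  have hesymm : ∀ k : ℕ, AnalyticAt ℂ (fun s => (M s).esymm k) 0 := by
    intro k
    refine (newton r hpow' k).congr ?_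
    filter_upwards [hcard] with s hs
    rw [hr s hs]
  refine ⟨fun s => ((M s).map (fun t => X - C t)).prod, ⟨⟨μ, ?_⟩, fun k => ?_⟩, ?_, ?_⟩
  · filter_upwards [hcard] with s hs
    refine ⟨monic_multiset_prod_of_monic _ _ fun t _ => monic_X_sub_C t, ?_⟩
    rw [natDegree_multiset_prod_X_sub_C_eq_card, hs]
  · by_cases hk : k ≤ μ
    · have h2 : AnalyticAt ℂ (fun s => (-1) ^ (μ - k) * (M s).esymm (μ - k)) 0 :=
        analyticAt_const.mul (hesymm _)
      refine h2.congr ?_
      filter_upwards [hcard] with s hs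
      rw [Multiset.prod_X_sub_C_coeff _ (by rw [hs]; exact hk), hs]
    · refine (analyticAt_const (v := (0 : ℂ))).congr ?_
      filter_upwards [hcard] with s hs
      rw [coeff_eq_zero_of_natDegree_lt]
      rw [natDegree_multiset_prod_X_sub_C_eq_card, hs]
      omega
  · have h00 : (0 : ℂ) ∈ closedBall (0 : ℂ) δ := mem_closedBall_self hδ.le
    have hrep : M 0 = Multiset.replicate μ ζ₀ := by
      rw [Multiset.eq_replicate]
      refine ⟨rfl, fun ζ hζ => ?_⟩
      by_contra hne'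
      have h2 := Multiset.count_ne_zero.2 hζ
      by_cases hb : ζ ∈ ball ζ₀ ε
      · rw [(hM 0 h00 ζ).1 hb] at h2
        refine h2 (ord_eq_zero _ (hfs 0) ζ ?_)
        exact h1 ((mem_ball.1 hb).trans hεε) hne'
      · exact h2 ((hM 0 h00 ζ).2 hb)
    show ((M 0).map (fun t => X - C t)).prod =
      (X - C ζ₀) ^ ((M 0).map (fun t => X - C t)).prod.natDegree
    rw [natDegree_multiset_prod_X_sub_C_eq_card, ← hμ, hrep, Multiset.map_replicate,
      Multiset.prod_replicate]
  · filter_upwards [closedBall_mem_nhds (0 : ℂ) hδ] with s hs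
    have hroots : (((M s).map (fun t => X - C t)).prod).roots = M s :=
      roots_multiset_prod_X_sub_C _
    have hmon : (((M s).map (fun t => X - C t)).prod).Monic :=
      monic_multiset_prod_of_monic _ _ fun t _ => monic_X_sub_C t
    refine ⟨fun ζ hζ => ?_, fun ζ hζ => ?_⟩
    · have h2 : ζ ∈ (((M s).map (fun t => X - C t)).prod).roots :=
        (mem_roots hmon.ne_zero).2 hζ
      rw [hroots] at h2
      by_contra hb
      exact Multiset.count_ne_zero.2 h2 ((hM s hs ζ).2 hb)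
    · rw [← count_roots, hroots, (hM s hs ζ).1 hζ]

end Pool.Agent.H59.BP.WP
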